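import Pool.Agent.Helper10.Taut.Torus

open Pool.Agent.Helper10.Taut

namespace Pool.Agent.Results.MP_106964_gt.TautTransfer

/-- Tautness does not pass from totally geodesic submanifolds to compact symmetric spaces: in
`S² × S²` the diagonal circle of the totally geodesic flat torus is taut in the torus (and it is
itself totally geodesic in `S² × S²` and taut in itself) but it is not taut in `S² × S²`. -/
theorem result :
    IsCounterexample sphereProd flatTorus diagCircle 4 2 1 ∧
    IsCounterexample sphereProd diagCircle diagCircle 4 1 1 :=
  ⟨⟨⟨isCompact_sphereProd, isConnected_sphereProd, isSubmanifold_sphereProd,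
      isSymmetric_sphereProd⟩,
    ⟨isCompact_flatTorus, isConnected_flatTorus, isSubmanifold_flatTorus,
      isTotallyGeodesic_flatTorus⟩,
    ⟨isCompact_diagCircle, isConnected_diagCircle, isSubmanifold_diagCircle, diagCircle_subset⟩,
    isTaut_torus, not_isTaut⟩,
   ⟨⟨isCompact_sphereProd, isConnected_sphereProd, isSubmanifold_sphereProd,
      isSymmetric_sphereProd⟩,
    ⟨isCompact_diagCircle, isConnected_diagCircle, isSubmanifold_diagCircle,
      isTotallyGeodesic_diagCircle⟩,
    ⟨isCompact_diagCircle, isConnected_diagCircle, isSubmanifold_diagCircle, le_rfl⟩,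
    isTaut_circle, not_isTaut⟩⟩

end Pool.Agent.Results.MP_106964_gt.TautTransfer
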